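import Pool.Agent.Helper94.TT.BC

set_option autoImplicit false

open Finset

namespace Pool.Agent.Helper89.TT

theorem st_B4 (hND : ST_ND) (hCC : ST_CC) : ST_B4 := by
  intro ε hε
  obtain ⟨C, hC1, hC⟩ := hCC (ε / 2) (by linarith) 16
  refine ⟨4 * C ^ 2, by nlinarith, ?_⟩
  intro N S G Y hN hS hG hSN i i' j j' k k' l l' E hE
  have hNN : N ^ 3 ≤ N ^ 16 := Nat.pow_le_pow_right hN (by norm_num)
  have hS16 : S ≤ 16 * N ^ 16 := le_trans hSN (Nat.mul_le_mul_left 16 hNN)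
  refine bc_fin S G N (4 * 2 ^ (i' + j')) (4 * 2 ^ (k + l)) 0 C ε _ hC1 hN hS hG (by positivity)
    i' j' k l rfl rfl _ ?_
  refine bc_core E (fun e => e.1.1) (fun e => e.1.2) (fun e => e.2.2.2.1) (fun e => e.2.2.2.2)
    (fun e => (e.2.1.2, e.2.1.1)) (fun e => (e.2.2.1.1, e.2.2.1.2)) i i' l l' _ _ (by positivity)
    (by positivity) ?_ ?_ ?_ ?_ ?_ ?_ ?_
  · intro e he
    obtain ⟨ht, hb⟩ := hE e he
    obtain ⟨p1, p2, p3, p4, p5, p6, p7, p8, -⟩ := bc_num S G N Y i i' j j' k k' l l' _ _ _ _ _ _ _ _ hN ht hb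
    exact ⟨p1, hb.1⟩
  · intro e he
    obtain ⟨ht, hb⟩ := hE e he
    obtain ⟨p1, p2, p3, p4, p5, p6, p7, p8, -⟩ := bc_num S G N Y i i' j j' k k' l l' _ _ _ _ _ _ _ _ hN ht hb
    exact ⟨p2, hb.2.1⟩
  · intro e he
    obtain ⟨ht, hb⟩ := hE e he
    obtain ⟨p1, p2, p3, p4, p5, p6, p7, p8, -⟩ := bc_num S G N Y i i' j j' k k' l l' _ _ _ _ _ _ _ _ hN ht hb
    exact ⟨p7, hb.2.2.2.2.2.2.1⟩
  · intro e he
    obtain ⟨ht, hb⟩ := hE e he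
    obtain ⟨p1, p2, p3, p4, p5, p6, p7, p8, -⟩ := bc_num S G N Y i i' j j' k k' l l' _ _ _ _ _ _ _ _ hN ht hb
    exact ⟨p8, hb.2.2.2.2.2.2.2⟩
  · rintro ⟨⟨a, a'⟩, ⟨b, b'⟩, ⟨g, g'⟩, d, d'⟩ - ⟨⟨a2, a2'⟩, ⟨b2, b2'⟩, ⟨g2, g2'⟩, d2, d2'⟩ -
    simp only [Prod.mk.injEq]
    rintro rfl rfl rfl rfl ⟨rfl, rfl⟩ ⟨rfl, rfl⟩
    simp
  · rintro ⟨⟨a, a'⟩, ⟨b0, b0'⟩, ⟨g0, g0'⟩, d, d'⟩ he0 Z hZ
    obtain ⟨ht0, hb0⟩ := hE _ he0
    simp only at ht0 hb0 hZ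
    obtain ⟨p1, p2, -, -, -, -, p7, p8, r1, r2, -, -, -, -, r7, r8, -, -, r9, -⟩ :=
      bc_num S G N Y i i' j j' k k' l l' _ _ _ _ _ _ _ _ hN ht0 hb0
    have hnd := (hND S G N Y _ _ _ _ _ _ _ _ ht0).2
    have h := hC N S (4 * 2 ^ (i' + j')) a' a d' d hN hS hS16 r9 p2 r2 p1 r1 p8 r8 p7 r7
      (by intro h; apply hnd; rw [Nat.mul_comm a d', h, Nat.mul_comm]) Z ?_
    · exact h
    · intro z hz
      obtain ⟨⟨⟨a1, a1'⟩, ⟨b, b'⟩, ⟨g, g'⟩, d1, d1'⟩, he, hh⟩ := hZ z hz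
      simp only at hh
      obtain ⟨rfl, rfl, rfl, rfl, rfl⟩ := hh
      obtain ⟨ht, hb⟩ := hE _ he
      simp only at ht hb
      obtain ⟨-, -, hb1, -, -, -, -, -, -, -, -, -, -, -, -, -, u1, -, -, -⟩ :=
        bc_num S G N Y i i' j j' k k' l l' _ _ _ _ _ _ _ _ hN ht hb
      obtain ⟨-, -, -, -, -, -, -, -, h1, h2, h3, h4, s1, s2, s3, s4, s5, s6, s7, s8, -⟩ := ht
      refine ⟨hb1, h1, u1, s1, s2, ?_⟩
      show SS S (d1' * b' + d1 * b)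
      rw [Nat.mul_comm d1' b', Nat.mul_comm d1 b, Nat.add_comm]; exact s7
  · rintro ⟨⟨a, a'⟩, ⟨b0, b0'⟩, ⟨g0, g0'⟩, d, d'⟩ he0 Z hZ
    obtain ⟨ht0, hb0⟩ := hE _ he0
    simp only at ht0 hb0 hZ
    obtain ⟨p1, p2, -, -, -, -, p7, p8, r1, r2, -, -, -, -, r7, r8, -, -, -, r10⟩ :=
      bc_num S G N Y i i' j j' k k' l l' _ _ _ _ _ _ _ _ hN ht0 hb0
    have hnd := (hND S G N Y _ _ _ _ _ _ _ _ ht0).2
    have h := hC N S (4 * 2 ^ (k + l)) d d' a a' hN hS hS16 r10 p7 r7 p8 r8 p1 r1 p2 r2 hnd Z ?_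
    · exact h
    · intro z hz
      obtain ⟨⟨⟨a1, a1'⟩, ⟨b, b'⟩, ⟨g, g'⟩, d1, d1'⟩, he, hh⟩ := hZ z hz
      simp only at hh
      obtain ⟨rfl, rfl, rfl, rfl, rfl⟩ := hh
      obtain ⟨ht, hb⟩ := hE _ he
      simp only at ht hb
      obtain ⟨-, -, -, -, -, hg', -, -, -, -, -, -, -, -, -, -, -, u2, -, -⟩ :=
        bc_num S G N Y i i' j j' k k' l l' _ _ _ _ _ _ _ _ hN ht hb
      obtain ⟨-, -, -, -, -, -, -, -, h1, h2, h3, h4, s1, s2, s3, s4, s5, s6, s7, s8, -⟩ := ht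
      refine ⟨hg', ?_, ?_, ?_, ?_, ?_⟩
      · show d1' * g' < d1 * g
        rw [Nat.mul_comm d1' g', Nat.mul_comm d1 g]; exact h3
      · show d1 * g ≤ 4 * 2 ^ (k + l)
        rw [Nat.mul_comm d1 g]; exact u2
      · show SS S (d1 * g + d1' * g')
        rw [Nat.mul_comm d1' g', Nat.mul_comm d1 g]; exact s5
      · show SS S (d1 * g - d1' * g')
        rw [Nat.mul_comm d1' g', Nat.mul_comm d1 g]; exact s6
      · show SS S (a1 * g + a1' * g')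
        rw [Nat.add_comm]; exact s3

end Pool.Agent.Helper89.TT
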