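import Pool.Agent.Helper89.TT.Basic
import Pool.Agent.Helper89.TT.Stmts2

set_option autoImplicit false

open Finset

namespace Pool.Agent.Helper89.TT

theorem st_ND : ST_ND := by
  intro S G N Y a a' b b' g g' d d' h
  obtain ⟨ha, hb, hg, hd', hc1, hc2, hbg, hbg', h1, h2, h3, h4, -, -, -, -, -, -, -, -, -, -, -, -,
    hne, -, -⟩ := h
  constructor
  · intro h
    have e1 : b ∣ b' := hbg.dvd_of_dvd_mul_right (Dvd.intro _ h)
    have e2 : b' ∣ b := hbg'.dvd_of_dvd_mul_right (Dvd.intro _ h.symm)
    have e3 : b = b' := Nat.dvd_antisymm e1 e2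
    subst e3
    have e4 : g' = g := Nat.eq_of_mul_eq_mul_left hb h
    subst e4
    apply hne
    ring
  · intro h
    have hca : Nat.Coprime a a' := Nat.Coprime.coprime_mul_right (Nat.Coprime.coprime_mul_right_right hc1)
    have e1 : a ∣ d := hca.dvd_of_dvd_mul_left (Dvd.intro _ h)
    obtain ⟨t, rfl⟩ := e1
    have e2 : d' = a' * t := by
      apply Nat.eq_of_mul_eq_mul_left ha
      rw [h]; ring
    subst e2
    have e3 : t * (a' * g') < t * (a * g) := by
      calc t * (a' * g') = g' * (a' * t) := by ring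
        _ < g * (a * t) := h3
        _ = t * (a * g) := by ring
    have e4 : t * (a * g) ≤ t * (a' * g') := Nat.mul_le_mul_left t h2.le
    omega

end Pool.Agent.Helper89.TT
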