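import Pool.Agent.Helper89.TT.Basic
import Pool.Agent.Helper89.TT.Stmts2

set_option autoImplicit false

open Finset

namespace Pool.Agent.Helper89.TT

theorem st_SYM : ST_SYM := by
  intro S G N Y a a' b b' g g' d d' h
  obtain ⟨ha, hb, hg, hd', hc1, hc2, hbg, hbg', h1, h2, h3, h4, s1, s2, s3, s4, s5, s6, s7, s8,
    g1, g2, n1, n2, hne, y1, y2⟩ := h
  refine ⟨ha, hg, hb, hd', hc2, hc1, hbg.symm, hbg'.symm, h2, h1, h4, h3, s3, s4, s1, s2, s7, s8,
    s5, s6, g2, g1, n2, n1, hne.symm, ?_, ?_⟩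
  · calc Y ≤ a' * b' * (g' * d') := y1
      _ = a' * g' * (b' * d') := by ring
  · calc Y ≤ a * b * (g * d) := y2
      _ = a * g * (b * d) := by ring

end Pool.Agent.Helper89.TT
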