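import Pool.Agent.Helper89.TT.Basic
import Pool.Agent.Helper89.TT.Stmts2

set_option autoImplicit false

open Finset

namespace Pool.Agent.Helper89.TT

/-- counting in a box: four coordinates fixed, the other four in two pairs -/
theorem bc_core {α : Type*} (E : Finset α) (f1 f2 f3 f4 : α → ℕ) (u v : α → ℕ × ℕ)
    (j1 j2 j3 j4 : ℕ) (A B : ℝ) (hA : 0 ≤ A) (hB : 0 ≤ B)
    (h1 : ∀ e ∈ E, 0 < f1 e ∧ Nat.log 2 (f1 e) = j1)
    (h2 : ∀ e ∈ E, 0 < f2 e ∧ Nat.log 2 (f2 e) = j2)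
    (h3 : ∀ e ∈ E, 0 < f3 e ∧ Nat.log 2 (f3 e) = j3)
    (h4 : ∀ e ∈ E, 0 < f4 e ∧ Nat.log 2 (f4 e) = j4)
    (hinj : ∀ e ∈ E, ∀ e' ∈ E, f1 e = f1 e' → f2 e = f2 e' → f3 e = f3 e' → f4 e = f4 e' →
      u e = u e' → v e = v e' → e = e')
    (hu : ∀ e₀ ∈ E, ∀ Z : Finset (ℕ × ℕ), (∀ z ∈ Z, ∃ e ∈ E, f1 e = f1 e₀ ∧ f2 e = f2 e₀ ∧
      f3 e = f3 e₀ ∧ f4 e = f4 e₀ ∧ u e = z) → (Z.card : ℝ) ≤ A)
    (hv : ∀ e₀ ∈ E, ∀ Z : Finset (ℕ × ℕ), (∀ z ∈ Z, ∃ e ∈ E, f1 e = f1 e₀ ∧ f2 e = f2 e₀ ∧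
      f3 e = f3 e₀ ∧ f4 e = f4 e₀ ∧ v e = z) → (Z.card : ℝ) ≤ B) :
    (E.card : ℝ) ≤ ((2 : ℝ) ^ j1 * 2 ^ j2 * 2 ^ j3 * 2 ^ j4) * (A * B) := by
  classical
  have c1 : ((E.image f1).card : ℝ) ≤ 2 ^ j1 := by
    apply card_log
    intro q hq
    obtain ⟨e, he, rfl⟩ := Finset.mem_image.1 hq
    exact h1 e he
  have c2 : ((E.image f2).card : ℝ) ≤ 2 ^ j2 := by
    apply card_log
    intro q hq
    obtain ⟨e, he, rfl⟩ := Finset.mem_image.1 hq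
    exact h2 e he
  have c3 : ((E.image f3).card : ℝ) ≤ 2 ^ j3 := by
    apply card_log
    intro q hq
    obtain ⟨e, he, rfl⟩ := Finset.mem_image.1 hq
    exact h3 e he
  have c4 : ((E.image f4).card : ℝ) ≤ 2 ^ j4 := by
    apply card_log
    intro q hq
    obtain ⟨e, he, rfl⟩ := Finset.mem_image.1 hq
    exact h4 e he
  refine fib_le E (fun e => ((f1 e, f2 e), (f3 e, f4 e))) _ _ ?_ (mul_nonneg hA hB) ?_
  · have hsub : E.image (fun e => ((f1 e, f2 e), (f3 e, f4 e))) ⊆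
        ((E.image f1) ×ˢ (E.image f2)) ×ˢ ((E.image f3) ×ˢ (E.image f4)) := by
      intro q hq
      obtain ⟨e, he, rfl⟩ := Finset.mem_image.1 hq
      simp only [Finset.mem_product]
      exact ⟨⟨Finset.mem_image_of_mem _ he, Finset.mem_image_of_mem _ he⟩,
        Finset.mem_image_of_mem _ he, Finset.mem_image_of_mem _ he⟩
    have hc := Finset.card_le_card hsub
    rw [Finset.card_product, Finset.card_product, Finset.card_product] at hc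
    have hc' : ((E.image (fun e => ((f1 e, f2 e), (f3 e, f4 e)))).card : ℝ) ≤
        (((E.image f1).card : ℝ) * (E.image f2).card) * (((E.image f3).card : ℝ) * (E.image f4).card) := by
      exact_mod_cast hc
    calc ((E.image (fun e => ((f1 e, f2 e), (f3 e, f4 e)))).card : ℝ)
        ≤ (((E.image f1).card : ℝ) * (E.image f2).card) * (((E.image f3).card : ℝ) * (E.image f4).card) := hc'
      _ ≤ ((2 : ℝ) ^ j1 * 2 ^ j2) * (2 ^ j3 * 2 ^ j4) := by gcongr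
      _ = (2 : ℝ) ^ j1 * 2 ^ j2 * 2 ^ j3 * 2 ^ j4 := by ring
  · intro b hb
    obtain ⟨e₀, he₀, rfl⟩ := Finset.mem_image.1 hb
    set F := E.filter (fun x => ((f1 x, f2 x), (f3 x, f4 x)) = ((f1 e₀, f2 e₀), (f3 e₀, f4 e₀))) with hF
    have hFm : ∀ e ∈ F, e ∈ E ∧ f1 e = f1 e₀ ∧ f2 e = f2 e₀ ∧ f3 e = f3 e₀ ∧ f4 e = f4 e₀ := by
      intro e he
      rw [hF, Finset.mem_filter] at he
      obtain ⟨he, heq⟩ := he
      simp only [Prod.mk.injEq] at heq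
      exact ⟨he, heq.1.1, heq.1.2, heq.2.1, heq.2.2⟩
    have ca : ((F.image u).card : ℝ) ≤ A := by
      apply hu e₀ he₀
      intro z hz
      obtain ⟨e, he, rfl⟩ := Finset.mem_image.1 hz
      have := hFm e he
      exact ⟨e, this.1, this.2.1, this.2.2.1, this.2.2.2.1, this.2.2.2.2, rfl⟩
    have cb : ((F.image v).card : ℝ) ≤ B := by
      apply hv e₀ he₀
      intro z hz
      obtain ⟨e, he, rfl⟩ := Finset.mem_image.1 hz
      have := hFm e he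
      exact ⟨e, this.1, this.2.1, this.2.2.1, this.2.2.2.1, this.2.2.2.2, rfl⟩
    refine card_le_of_inj F (fun e => (u e, v e)) _ ?_ ?_
    · intro x hx y hy hxy
      simp only [Prod.mk.injEq] at hxy
      have h1 := hFm x hx
      have h2 := hFm y hy
      exact hinj x h1.1 y h2.1 (h1.2.1.trans h2.2.1.symm) (h1.2.2.1.trans h2.2.2.1.symm)
        (h1.2.2.2.1.trans h2.2.2.2.1.symm) (h1.2.2.2.2.trans h2.2.2.2.2.symm) hxy.1 hxy.2
    · have hsub : F.image (fun e => (u e, v e)) ⊆ (F.image u) ×ˢ (F.image v) := by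
        intro q hq
        obtain ⟨e, he, rfl⟩ := Finset.mem_image.1 hq
        simp only [Finset.mem_product]
        exact ⟨Finset.mem_image_of_mem _ he, Finset.mem_image_of_mem _ he⟩
      have hc := Finset.card_le_card hsub
      rw [Finset.card_product] at hc
      calc ((F.image (fun e => (u e, v e))).card : ℝ)
          ≤ ((F.image u).card : ℝ) * (F.image v).card := by exact_mod_cast hc
        _ ≤ A * B := by gcongr

/-- numeric facts in one box -/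
theorem bc_num (S G N Y i i' j j' k k' l l' a a' b b' g g' d d' : ℕ) (hN : 1 ≤ N)
    (h : Tup S G N Y a a' b b' g g' d d')
    (hb : InBox i i' j j' k k' l l' a a' b b' g g' d d') :
    0 < a ∧ 0 < a' ∧ 0 < b ∧ 0 < b' ∧ 0 < g ∧ 0 < g' ∧ 0 < d ∧ 0 < d' ∧
    a ≤ 16 * N ^ 16 ∧ a' ≤ 16 * N ^ 16 ∧ b ≤ 16 * N ^ 16 ∧ b' ≤ 16 * N ^ 16 ∧
    g ≤ 16 * N ^ 16 ∧ g' ≤ 16 * N ^ 16 ∧ d ≤ 16 * N ^ 16 ∧ d' ≤ 16 * N ^ 16 ∧
    a' * b' ≤ 4 * 2 ^ (i' + j') ∧ g * d ≤ 4 * 2 ^ (k + l) ∧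
    4 * 2 ^ (i' + j') ≤ 16 * N ^ 16 ∧ 4 * 2 ^ (k + l) ≤ 16 * N ^ 16 := by
  obtain ⟨ha, hb0, hg, hd', hc1, hc2, hbg, hbg', h1, h2, h3, h4, -, -, -, -, -, -, -, -, -, -,
    n1, n2, hne, -, -⟩ := h
  obtain ⟨e1, e2, e3, e4, e5, e6, e7, e8⟩ := hb
  have hd : 0 < d := by
    rcases Nat.eq_zero_or_pos d with h | h
    · subst h; simp at h3
    · exact h
  have ha' : 0 < a' := by
    rcases Nat.eq_zero_or_pos a' with h | h
    · subst h; simp at h1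
    · exact h
  have hb' : 0 < b' := by
    rcases Nat.eq_zero_or_pos b' with h | h
    · subst h; simp at h1
    · exact h
  have hg' : 0 < g' := by
    rcases Nat.eq_zero_or_pos g' with h | h
    · subst h; simp at h2
    · exact h
  have hNN : N ≤ N ^ 16 := Nat.le_self_pow (by norm_num) N
  have p1 : a' * b' ≤ 3 * N := le_trans (Nat.le_mul_of_pos_right _ (Nat.mul_pos hg hd)) n1
  have p2 : g * d ≤ 3 * N := le_trans (Nat.le_mul_of_pos_left _ (Nat.mul_pos ha' hb')) n1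
  have p3 : a' * g' ≤ 3 * N := le_trans (Nat.le_mul_of_pos_right _ (Nat.mul_pos hb0 hd)) n2
  have p4 : b * d ≤ 3 * N := le_trans (Nat.le_mul_of_pos_left _ (Nat.mul_pos ha' hg')) n2
  have q1 : a ≤ a * b := Nat.le_mul_of_pos_right _ hb0
  have q2 : b ≤ a * b := Nat.le_mul_of_pos_left _ ha
  have q3 : a' ≤ a' * b' := Nat.le_mul_of_pos_right _ hb'
  have q4 : b' ≤ a' * b' := Nat.le_mul_of_pos_left _ ha'
  have q5 : g ≤ g * d := Nat.le_mul_of_pos_right _ hd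
  have q6 : d ≤ g * d := Nat.le_mul_of_pos_left _ hg
  have q7 : g' ≤ a' * g' := Nat.le_mul_of_pos_left _ ha'
  have q8 : d' ≤ b' * d' := Nat.le_mul_of_pos_left _ hb'
  have r1 : 2 ^ i' ≤ a' := by rw [← e2]; exact Nat.pow_log_le_self 2 ha'.ne'
  have r2 : 2 ^ j' ≤ b' := by rw [← e4]; exact Nat.pow_log_le_self 2 hb'.ne'
  have r3 : 2 ^ k ≤ g := by rw [← e5]; exact Nat.pow_log_le_self 2 hg.ne'
  have r4 : 2 ^ l ≤ d := by rw [← e7]; exact Nat.pow_log_le_self 2 hd.ne'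
  have t1 : a' < 2 ^ (i' + 1) := by rw [← e2]; exact Nat.lt_pow_succ_log_self (by norm_num) a'
  have t2 : b' < 2 ^ (j' + 1) := by rw [← e4]; exact Nat.lt_pow_succ_log_self (by norm_num) b'
  have t3 : g < 2 ^ (k + 1) := by rw [← e5]; exact Nat.lt_pow_succ_log_self (by norm_num) g
  have t4 : d < 2 ^ (l + 1) := by rw [← e7]; exact Nat.lt_pow_succ_log_self (by norm_num) d
  have u1 : a' * b' ≤ 4 * 2 ^ (i' + j') := by
    calc a' * b' ≤ 2 ^ (i' + 1) * 2 ^ (j' + 1) := Nat.mul_le_mul t1.le t2.le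
      _ = 4 * 2 ^ (i' + j') := by rw [pow_succ, pow_succ, pow_add]; ring
  have u2 : g * d ≤ 4 * 2 ^ (k + l) := by
    calc g * d ≤ 2 ^ (k + 1) * 2 ^ (l + 1) := Nat.mul_le_mul t3.le t4.le
      _ = 4 * 2 ^ (k + l) := by rw [pow_succ, pow_succ, pow_add]; ring
  have v1 : 2 ^ (i' + j') ≤ a' * b' := by
    rw [pow_add]; exact Nat.mul_le_mul r1 r2
  have v2 : 2 ^ (k + l) ≤ g * d := by
    rw [pow_add]; exact Nat.mul_le_mul r3 r4
  refine ⟨ha, ha', hb0, hb', hg, hg', hd, hd', ?_, ?_, ?_, ?_, ?_, ?_, ?_, ?_, u1, u2, ?_, ?_⟩ <;>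
    omega

/-- the final numeric step -/
theorem bc_fin (S G N m n X : ℕ) (C ε P : ℝ) (hC : 1 ≤ C) (hN : 1 ≤ N) (hS : 1 ≤ S) (hG : 1 ≤ G)
    (hP : 0 ≤ P) (i' j' k l : ℕ) (hm : m = 4 * 2 ^ (i' + j')) (hn : n = 4 * 2 ^ (k + l)) (E : ℝ)
    (hE : E ≤ P * ((C * (N : ℝ) ^ (ε / 2) * (S : ℝ) ^ 3 * Real.sqrt m) *
      (C * (N : ℝ) ^ (ε / 2) * (S : ℝ) ^ 3 * Real.sqrt n))) :
    E ≤ (4 * C ^ 2) * ((S : ℝ) * G) ^ 24 * (N : ℝ) ^ ε * P *
      Real.sqrt (2 ^ i' * 2 ^ j' * 2 ^ k * 2 ^ l) := by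
  have hN0 : (0 : ℝ) < N := by exact_mod_cast hN
  have hS1 : (1 : ℝ) ≤ S := by exact_mod_cast hS
  have hG1 : (1 : ℝ) ≤ G := by exact_mod_cast hG
  have e1 : (N : ℝ) ^ (ε / 2) * (N : ℝ) ^ (ε / 2) = (N : ℝ) ^ ε := by
    rw [← Real.rpow_add hN0]; ring_nf
  have e2 : Real.sqrt m * Real.sqrt n = 4 * Real.sqrt (2 ^ i' * 2 ^ j' * 2 ^ k * 2 ^ l) := by
    rw [← Real.sqrt_mul (Nat.cast_nonneg m), hm, hn]
    have : ((4 * 2 ^ (i' + j') : ℕ) : ℝ) * ((4 * 2 ^ (k + l) : ℕ) : ℝ) =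
        4 ^ 2 * (2 ^ i' * 2 ^ j' * 2 ^ k * 2 ^ l) := by
      push_cast
      rw [pow_add, pow_add]; ring
    rw [this, Real.sqrt_mul (by positivity), Real.sqrt_sq (by norm_num)]
  have e3 : (S : ℝ) ^ 6 ≤ ((S : ℝ) * G) ^ 24 := by
    calc (S : ℝ) ^ 6 ≤ (S : ℝ) ^ 24 := pow_le_pow_right₀ hS1 (by norm_num)
      _ ≤ ((S : ℝ) * G) ^ 24 := by
        apply pow_le_pow_left₀ (by positivity)
        nlinarith
  calc E ≤ P * ((C * (N : ℝ) ^ (ε / 2) * (S : ℝ) ^ 3 * Real.sqrt m) *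
      (C * (N : ℝ) ^ (ε / 2) * (S : ℝ) ^ 3 * Real.sqrt n)) := hE
    _ = C ^ 2 * (S : ℝ) ^ 6 * ((N : ℝ) ^ (ε / 2) * (N : ℝ) ^ (ε / 2)) * P *
        (Real.sqrt m * Real.sqrt n) := by ring
    _ = (4 * C ^ 2) * (S : ℝ) ^ 6 * (N : ℝ) ^ ε * P *
        Real.sqrt (2 ^ i' * 2 ^ j' * 2 ^ k * 2 ^ l) := by rw [e1, e2]; ring
    _ ≤ (4 * C ^ 2) * ((S : ℝ) * G) ^ 24 * (N : ℝ) ^ ε * P *
      Real.sqrt (2 ^ i' * 2 ^ j' * 2 ^ k * 2 ^ l) := by gcongr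

end Pool.Agent.Helper89.TT
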